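import Mathlib
import Pool.Agent.Helper240.ZFM.Q5b

/-!
# `D¹(X) = A¹(X)` for polynomially convex regular sets with connected dense interior

Let `X` be a compact plane set such that `ℂ ∖ X` is connected, the interior of `X` is connected and
dense in `X`, and `X` is uniformly regular (or only pointwise regular). Then `D¹(X) = A¹(X)`. So the
answer to the question is negative.

The proof: for `f ∈ A¹(X)` the extended derivative `g` is a uniform limit on `X` of polynomials `pₙ`
by Mergelyan's theorem (starting library, `ZFM.mergelyan`). By regularity the antiderivatives `Pₙ`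
with `Pₙ(z₀) = 0` converge on `X`, and the limit `h` is differentiable on `X` with derivative `g`.
On the connected interior `f - h` is constant, hence on `X`.
-/

set_option autoImplicit false

namespace Pool.Agent.Results.MP_8e12aa_an.NoSeparation

open Set Filter Topology

/-- `z` and `w` can be joined inside `X` by a path of length at most `L`. -/
def Joined (X : Set ℂ) (z w : ℂ) (L : ℝ) : Prop :=
  ∃ γ : ℝ → ℂ, ContinuousOn γ (Icc 0 1) ∧ γ 0 = z ∧ γ 1 = w ∧ (∀ t ∈ Icc (0 : ℝ) 1, γ t ∈ X) ∧
    eVariationOn γ (Icc 0 1) ≤ ENNReal.ofReal L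

/-- `X` is uniformly regular: for some `k > 0` every pair `z, w ∈ X` can be joined inside `X` by a
rectifiable path whose length is at most `k |z - w|`. -/
def UniformlyRegular (X : Set ℂ) : Prop :=
  ∃ k : ℝ, 0 < k ∧ ∀ z ∈ X, ∀ w ∈ X, Joined X z w (k * ‖z - w‖)

/-- `X` is pointwise regular: for every `z ∈ X` there is `k > 0` such that every `w ∈ X` can be joined
to `z` inside `X` by a rectifiable path whose length is at most `k |z - w|`. -/
def PointwiseRegular (X : Set ℂ) : Prop :=
  ∀ z ∈ X, ∃ k : ℝ, 0 < k ∧ ∀ w ∈ X, Joined X z w (k * ‖z - w‖)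

/-- The extension by zero of a function on `X`. -/
noncomputable def ext {X : Set ℂ} (f : C(X, ℂ)) : ℂ → ℂ := Function.extend Subtype.val f 0

/-- `D¹(X)`: the functions with a complex derivative at every point of `X`, the derivative being
continuous on `X`. -/
def D1 (X : Set ℂ) : Set C(X, ℂ) :=
  {f | ∃ g : C(X, ℂ), ∀ a : X,
    Tendsto (fun z : X => (f z - f a) / ((z : ℂ) - a)) (𝓝[≠] a) (𝓝 (g a))}

/-- `A¹(X)`: the continuous functions on `X` which are analytic on the interior of `X`, the
derivative having a continuous extension to `X`. -/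
def A1 (X : Set ℂ) : Set C(X, ℂ) :=
  {f | DifferentiableOn ℂ (ext f) (interior X) ∧
    ∃ g : C(X, ℂ), ∀ z : X, (z : ℂ) ∈ interior X → deriv (ext f) z = g z}

theorem ext_apply {X : Set ℂ} (f : C(X, ℂ)) (z : X) : ext f z = f z :=
  Subtype.val_injective.extend_apply _ _ _

theorem ext_continuousOn {X : Set ℂ} (f : C(X, ℂ)) : ContinuousOn (ext f) X := by
  rw [continuousOn_iff_continuous_domRestrict]
  have : X.domRestrict (ext f) = f := by
    funext z
    exact ext_apply f z
  rw [this]
  exact f.continuous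

/-- the increment of a polynomial along a rectifiable path -/
theorem poly_path (P : Polynomial ℂ) (γ : ℝ → ℂ) (hγ : ContinuousOn γ (Icc 0 1)) (M L : ℝ)
    (hL : 0 ≤ L) (hM : ∀ t ∈ Icc (0 : ℝ) 1, ‖P.derivative.eval (γ t)‖ < M)
    (hv : eVariationOn γ (Icc 0 1) ≤ ENNReal.ofReal L) :
    ‖P.eval (γ 1) - P.eval (γ 0)‖ ≤ M * L := by
  have hK : IsCompact (γ '' Icc 0 1) := isCompact_Icc.image_of_continuousOn hγ
  have hVo : IsOpen {x : ℂ | ‖P.derivative.eval x‖ < M} :=
    isOpen_lt (P.derivative.continuous.norm) continuous_const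
  have hKV : γ '' Icc 0 1 ⊆ {x : ℂ | ‖P.derivative.eval x‖ < M} := by
    rintro _ ⟨t, ht, rfl⟩
    exact hM t ht
  obtain ⟨ρ, hρ, hth⟩ := hK.exists_thickening_subset_open hVo hKV
  have huc := isCompact_Icc.uniformContinuousOn_of_continuous hγ
  rw [Metric.uniformContinuousOn_iff] at huc
  obtain ⟨δ, hδ, huc⟩ := huc ρ hρ
  have hM0 : 0 < M := lt_of_le_of_lt (norm_nonneg _) (hM 0 (by simp))
  have step : ∀ s ∈ Icc (0 : ℝ) 1, ∀ t ∈ Icc (0 : ℝ) 1, dist s t < δ →
      ‖P.eval (γ t) - P.eval (γ s)‖ ≤ M * ‖γ t - γ s‖ := by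
    intro s hs t ht hst
    have hb : Metric.ball (γ s) ρ ⊆ {x : ℂ | ‖P.derivative.eval x‖ < M} := by
      refine Subset.trans ?_ hth
      intro x hx
      rw [Metric.mem_thickening_iff]
      exact ⟨γ s, mem_image_of_mem _ hs, hx⟩
    refine Convex.norm_image_sub_le_of_norm_deriv_le (f := fun x => P.eval x)
      (s := Metric.ball (γ s) ρ) (fun x _ => P.differentiable.differentiableAt) (fun x hx => ?_)
      (convex_ball _ _) (Metric.mem_ball_self hρ) ?_
    · rw [Polynomial.deriv]
      exact (hb hx).le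
    · rw [Metric.mem_ball, dist_comm]
      exact huc s hs t ht hst
  obtain ⟨n, hn⟩ := exists_nat_one_div_lt hδ
  set u : ℕ → ℝ := fun i => min ((i : ℝ) * (1 / ((n : ℝ) + 1))) 1 with hu
  have hn0 : (0 : ℝ) < 1 / ((n : ℝ) + 1) := by positivity
  have humono : Monotone u := by
    intro i j hij
    have : (i : ℝ) ≤ j := by exact_mod_cast hij
    exact min_le_min_right _ (mul_le_mul_of_nonneg_right this hn0.le)
  have hus : ∀ i, u i ∈ Icc (0 : ℝ) 1 := fun i =>
    ⟨le_min (by positivity) zero_le_one, min_le_right _ _⟩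
  have hsum := eVariationOn.sum_le (f := γ) (s := Icc (0 : ℝ) 1) (n := n + 1) humono hus
  have hu0 : u 0 = 0 := by simp [hu]
  have hu1 : u (n + 1) = 1 := by
    simp only [hu]
    push_cast
    rw [mul_one_div_cancel (by positivity)]
    simp
  have hdist : ∀ i, dist (u i) (u (i + 1)) < δ := by
    intro i
    refine lt_of_le_of_lt ?_ hn
    rw [Real.dist_eq, abs_sub_comm, abs_of_nonneg (sub_nonneg.2 (humono (Nat.le_succ i)))]
    simp only [hu]
    push_cast
    rcases le_total ((i : ℝ) * (1 / ((n : ℝ) + 1))) 1 with h | h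
    · rw [min_eq_left h]
      have := min_le_left (((i : ℝ) + 1) * (1 / ((n : ℝ) + 1))) 1
      nlinarith
    · rw [min_eq_right h]
      have := min_le_right (((i : ℝ) + 1) * (1 / ((n : ℝ) + 1))) 1
      linarith
  have htel : P.eval (γ 1) - P.eval (γ 0) =
      ∑ i ∈ Finset.range (n + 1), (P.eval (γ (u (i + 1))) - P.eval (γ (u i))) := by
    rw [Finset.sum_range_sub (fun i => P.eval (γ (u i))), hu0, hu1]
  have hs2 : ∑ i ∈ Finset.range (n + 1), ‖γ (u (i + 1)) - γ (u i)‖ ≤ L := by
    have h1 := hsum.trans hv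
    have h2 : ∀ i, edist (γ (u (i + 1))) (γ (u i)) = ENNReal.ofReal ‖γ (u (i + 1)) - γ (u i)‖ := by
      intro i
      rw [edist_dist, dist_eq_norm]
    simp only [h2] at h1
    rw [← ENNReal.ofReal_sum_of_nonneg (fun i _ => norm_nonneg _)] at h1
    exact (ENNReal.ofReal_le_ofReal_iff hL).1 h1
  rw [htel]
  calc ‖∑ i ∈ Finset.range (n + 1), (P.eval (γ (u (i + 1))) - P.eval (γ (u i)))‖
      ≤ ∑ i ∈ Finset.range (n + 1), ‖P.eval (γ (u (i + 1))) - P.eval (γ (u i))‖ := norm_sum_le _ _
    _ ≤ ∑ i ∈ Finset.range (n + 1), M * ‖γ (u (i + 1)) - γ (u i)‖ :=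
        Finset.sum_le_sum fun i _ => step _ (hus i) _ (hus _) (hdist i)
    _ = M * ∑ i ∈ Finset.range (n + 1), ‖γ (u (i + 1)) - γ (u i)‖ := by rw [Finset.mul_sum]
    _ ≤ M * L := mul_le_mul_of_nonneg_left hs2 hM0.le

/-- local estimate -/
theorem key (X : Set ℂ) (P : Polynomial ℂ) {a z c : ℂ} {L M : ℝ} (hL : 0 ≤ L) (hj : Joined X a z L)
    (hM : ∀ x ∈ X, ‖x - a‖ ≤ L → ‖P.derivative.eval x - c‖ ≤ M) :
    ‖P.eval z - P.eval a - c * (z - a)‖ ≤ M * L := by
  obtain ⟨γ, hγ, h0, h1, hX, hv⟩ := hj
  have hnear : ∀ t ∈ Icc (0 : ℝ) 1, ‖γ t - a‖ ≤ L := by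
    intro t ht
    have h := (eVariationOn.edist_le γ ht (show (0 : ℝ) ∈ Icc (0 : ℝ) 1 by simp)).trans hv
    rw [edist_dist, dist_eq_norm, h0] at h
    exact (ENNReal.ofReal_le_ofReal_iff hL).1 h
  have main : ∀ η : ℝ, 0 < η → ‖P.eval z - P.eval a - c * (z - a)‖ ≤ (M + η) * L := by
    intro η hη
    have h := poly_path (P - Polynomial.C c * Polynomial.X) γ hγ (M + η) L hL (fun t ht => by
      simp only [Polynomial.derivative_sub, Polynomial.derivative_mul, Polynomial.derivative_C,
        Polynomial.derivative_X, Polynomial.eval_sub, Polynomial.eval_C, zero_mul, mul_one,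
        zero_add]
      exact lt_of_le_of_lt (hM _ (hX t ht) (hnear t ht)) (by linarith)) hv
    rw [h0, h1] at h
    simp only [Polynomial.eval_sub, Polynomial.eval_mul, Polynomial.eval_C,
      Polynomial.eval_X] at h
    have e : P.eval z - P.eval a - c * (z - a) = P.eval z - c * z - (P.eval a - c * a) := by ring
    rw [e]
    exact h
  have hlim : Tendsto (fun n : ℕ => (M + 1 / ((n : ℝ) + 1)) * L) atTop (𝓝 ((M + 0) * L)) :=
    (tendsto_const_nhds.add tendsto_one_div_add_atTop_nhds_zero_nat).mul_const L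
  rw [add_zero] at hlim
  exact ge_of_tendsto' hlim fun n => main _ (by positivity)

/-- antiderivatives -/
theorem exists_antider (p : Polynomial ℂ) : ∃ P : Polynomial ℂ, P.derivative = p := by
  induction p using Polynomial.induction_on' with
  | add p q hp hq =>
    obtain ⟨P, hP⟩ := hp
    obtain ⟨Q, hQ⟩ := hq
    exact ⟨P + Q, by rw [Polynomial.derivative_add, hP, hQ]⟩
  | monomial n a =>
    refine ⟨Polynomial.monomial (n + 1) (a / (n + 1)), ?_⟩
    rw [Polynomial.derivative_monomial]
    congr 1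
    push_cast
    have : (n : ℂ) + 1 ≠ 0 := by exact_mod_cast Nat.succ_ne_zero n
    field_simp

/-- the limit of the antiderivatives -/
theorem exists_primitive {X : Set ℂ} (hc : IsCompact X) (hr : PointwiseRegular X)
    (hp : IsConnected Xᶜ) (hne : X.Nonempty) (G : ℂ → ℂ) (hG : ContinuousOn G X)
    (hGd : DifferentiableOn ℂ G (interior X)) :
    ∃ h : ℂ → ℂ, ∀ a ∈ X, HasDerivWithinAt h (G a) X a := by
  obtain ⟨z0, hz0⟩ := hne
  obtain ⟨k0, hk0, hr0⟩ := hr z0 hz0
  have hmer : ∀ n : ℕ, ∃ P : Polynomial ℂ, ∀ z ∈ X, ‖P.derivative.eval z - G z‖ < 1 / ((n : ℝ) + 1) := by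
    intro n
    obtain ⟨p, hp⟩ := ZFM.mergelyan hc hp G hG hGd (1 / ((n : ℝ) + 1)) (by positivity)
    obtain ⟨P, rfl⟩ := exists_antider p
    exact ⟨P, hp⟩
  choose P hP using hmer
  have hlim : ∀ z ∈ X, ∃ l : ℂ, Tendsto (fun n => (P n).eval z - (P n).eval z0) atTop (𝓝 l) := by
    intro z hz
    refine cauchySeq_tendsto_of_complete ?_
    have hL : 0 ≤ k0 * ‖z0 - z‖ := by positivity
    refine cauchySeq_of_le_tendsto_0 (fun N : ℕ => (1 / ((N : ℝ) + 1) + 1 / ((N : ℝ) + 1)) * (k0 * ‖z0 - z‖))
      (fun n m N hn hm => ?_) ?_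
    · rw [dist_eq_norm]
      have h := key X (P n - P m) (c := 0) (M := 1 / ((N : ℝ) + 1) + 1 / ((N : ℝ) + 1)) hL (hr0 z hz) (fun x hx _ => by
        have e : (P n - P m).derivative.eval x - 0 =
            ((P n).derivative.eval x - G x) - ((P m).derivative.eval x - G x) := by
          rw [Polynomial.derivative_sub, Polynomial.eval_sub]
          ring
        rw [e]
        have hn' : 1 / ((n : ℝ) + 1) ≤ 1 / ((N : ℝ) + 1) := by
          apply one_div_le_one_div_of_le (by positivity)
          have : (N : ℝ) ≤ n := by exact_mod_cast hn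
          linarith
        have hm' : 1 / ((m : ℝ) + 1) ≤ 1 / ((N : ℝ) + 1) := by
          apply one_div_le_one_div_of_le (by positivity)
          have : (N : ℝ) ≤ m := by exact_mod_cast hm
          linarith
        exact (norm_sub_le _ _).trans (add_le_add ((hP n x hx).le.trans hn') ((hP m x hx).le.trans hm')))
      have e : (P n).eval z - (P n).eval z0 - ((P m).eval z - (P m).eval z0) =
          (P n - P m).eval z - (P n - P m).eval z0 - 0 * (z - z0) := by
        simp only [Polynomial.eval_sub]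
        ring
      rw [e]
      exact h
    · have h1 : Tendsto (fun N : ℕ => (1 / ((N : ℝ) + 1) + 1 / ((N : ℝ) + 1)) * (k0 * ‖z0 - z‖)) atTop
          (𝓝 ((0 + 0) * (k0 * ‖z0 - z‖))) :=
        (tendsto_one_div_add_atTop_nhds_zero_nat.add tendsto_one_div_add_atTop_nhds_zero_nat).mul_const _
      simpa using h1
  choose! h hh using hlim
  refine ⟨h, fun a ha => ?_⟩
  obtain ⟨k, hk, hra⟩ := hr a ha
  have est : ∀ z ∈ X, ∀ (c : ℂ) (M : ℝ), (∀ x ∈ X, ‖x - a‖ ≤ k * ‖a - z‖ → ‖G x - c‖ ≤ M) →
      ‖h z - h a - c * (z - a)‖ ≤ M * (k * ‖a - z‖) := by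
    intro z hz c M hM
    have hL : 0 ≤ k * ‖a - z‖ := by positivity
    have h1 : ∀ n : ℕ, ‖((P n).eval z - (P n).eval z0) - ((P n).eval a - (P n).eval z0) - c * (z - a)‖
        ≤ (M + 1 / ((n : ℝ) + 1)) * (k * ‖a - z‖) := by
      intro n
      have h2 := key X (P n) (c := c) (M := M + 1 / ((n : ℝ) + 1)) hL (hra z hz) (fun x hx hxa => by
        have e : (P n).derivative.eval x - c = (G x - c) + ((P n).derivative.eval x - G x) := by ring
        rw [e]
        exact (norm_add_le _ _).trans (add_le_add (hM x hx hxa) (hP n x hx).le))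
      have e : (P n).eval z - (P n).eval z0 - ((P n).eval a - (P n).eval z0) - c * (z - a) =
          (P n).eval z - (P n).eval a - c * (z - a) := by ring
      rw [e]
      exact h2
    have h3 : Tendsto (fun n : ℕ => ‖((P n).eval z - (P n).eval z0) - ((P n).eval a - (P n).eval z0)
        - c * (z - a)‖) atTop (𝓝 ‖h z - h a - c * (z - a)‖) :=
      (((hh z hz).sub (hh a ha)).sub_const _).norm
    have h4 : Tendsto (fun n : ℕ => (M + 1 / ((n : ℝ) + 1)) * (k * ‖a - z‖)) atTop
        (𝓝 ((M + 0) * (k * ‖a - z‖))) :=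
      (tendsto_const_nhds.add tendsto_one_div_add_atTop_nhds_zero_nat).mul_const _
    rw [add_zero] at h4
    exact le_of_tendsto_of_tendsto' h3 h4 h1
  rw [hasDerivWithinAt_iff_isLittleO, Asymptotics.isLittleO_iff]
  intro ε hε
  have hGa := hG a ha
  rw [Metric.continuousWithinAt_iff] at hGa
  obtain ⟨δ, hδ, hGa⟩ := hGa (ε / k) (by positivity)
  rw [eventually_nhdsWithin_iff, Metric.eventually_nhds_iff]
  refine ⟨δ / k, by positivity, fun z hz hzX => ?_⟩
  have hz' : k * ‖a - z‖ < δ := by
    rw [dist_eq_norm, norm_sub_rev] at hz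
    rwa [lt_div_iff₀ hk, mul_comm] at hz
  have h5 := est z hzX (G a) (ε / k) (fun x hx hxa => by
    have := hGa hx (by rw [dist_eq_norm]; exact lt_of_le_of_lt hxa hz')
    rw [dist_eq_norm] at this
    exact this.le)
  rw [smul_eq_mul, mul_comm (z - a) (G a)]
  refine h5.trans (le_of_eq ?_)
  rw [norm_sub_rev a z]
  field_simp

/-- the theorem for pointwise regular sets -/
theorem main {X : Set ℂ} (hc : IsCompact X) (hr : PointwiseRegular X) (hp : IsConnected Xᶜ)
    (hU : IsConnected (interior X)) (hd : X ⊆ closure (interior X)) : D1 X = A1 X := by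
  apply Subset.antisymm
  · rintro f ⟨g, hg⟩
    have hder : ∀ z : X, (z : ℂ) ∈ interior X → HasDerivAt (ext f) (g z) z := by
      intro z hz
      rw [hasDerivAt_iff_tendsto_slope]
      have h1 := hg z
      rw [Metric.tendsto_nhdsWithin_nhds] at h1 ⊢
      intro ε hε
      obtain ⟨δ, hδ, h1⟩ := h1 ε hε
      obtain ⟨r, hr0, hrX⟩ := Metric.isOpen_iff.1 isOpen_interior _ hz
      refine ⟨min δ r, lt_min hδ hr0, fun {w} hw hwd => ?_⟩
      have hwX : w ∈ X := interior_subset (hrX (by
        rw [Metric.mem_ball]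
        exact lt_of_lt_of_le hwd (min_le_right _ _)))
      have h2 := h1 (x := ⟨w, hwX⟩) (by
        intro h
        exact hw (congrArg Subtype.val h)) (by
        rw [Subtype.dist_eq]
        exact lt_of_lt_of_le hwd (min_le_left _ _))
      rw [slope_def_field, ext_apply f z, show ext f w = f ⟨w, hwX⟩ from ext_apply f ⟨w, hwX⟩]
      exact h2
    refine ⟨fun z hz => (hder ⟨z, interior_subset hz⟩ hz).differentiableAt.differentiableWithinAt,
      g, fun z hz => (hder z hz).deriv⟩
  · rintro f ⟨hf, g, hg⟩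
    have hne : X.Nonempty := hU.nonempty.mono interior_subset
    have hGd : DifferentiableOn ℂ (ext g) (interior X) := by
      refine (hf.deriv isOpen_interior).congr fun z hz => ?_
      rw [hg ⟨z, interior_subset hz⟩ hz]
      exact ext_apply g ⟨z, interior_subset hz⟩
    obtain ⟨h, hh⟩ := exists_primitive hc hr hp hne (ext g) (ext_continuousOn g) hGd
    have hdF : ∀ z ∈ interior X, HasDerivAt (ext f) (ext g z) z := by
      intro z hz
      have h1 := (hf.differentiableAt (isOpen_interior.mem_nhds hz)).hasDerivAt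
      rw [hg ⟨z, interior_subset hz⟩ hz] at h1
      rwa [show ext g z = g ⟨z, interior_subset hz⟩ from ext_apply g ⟨z, interior_subset hz⟩]
    have hdh : ∀ z ∈ interior X, HasDerivAt h (ext g z) z := fun z hz =>
      (hh z (interior_subset hz)).hasDerivAt (mem_interior_iff_mem_nhds.1 hz)
    have hdiff : ∀ z ∈ interior X, HasDerivAt (fun z => ext f z - h z) 0 z := by
      intro z hz
      have := (hdF z hz).sub (hdh z hz)
      rw [sub_self] at this
      exact this
    obtain ⟨c, hcst⟩ := isOpen_interior.exists_is_const_of_deriv_eq_zero hU.isPreconnected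
      (fun z hz => (hdiff z hz).differentiableAt.differentiableWithinAt)
      (fun z hz => (hdiff z hz).deriv)
    have hhc : ContinuousOn h X := fun z hz => (hh z hz).continuousWithinAt
    have heq : EqOn (fun z => ext f z) (fun z => h z + c) X := by
      refine EqOn.of_subset_closure (s := interior X) (fun z hz => ?_) (ext_continuousOn f)
        (hhc.add continuousOn_const) interior_subset hd
      have h1 : ext f z - h z = c := hcst z hz
      change ext f z = h z + c
      rw [← h1]
      ring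
    refine ⟨g, fun a => ?_⟩
    have hda : HasDerivWithinAt (ext f) (g a) X a := by
      have h1 : HasDerivWithinAt (fun z => h z + c) (ext g a) X a := (hh a a.2).add_const c
      rw [ext_apply] at h1
      exact h1.congr (fun z hz => heq hz) (heq a.2)
    rw [hasDerivWithinAt_iff_tendsto_slope] at hda
    have hval : Tendsto (Subtype.val : X → ℂ) (𝓝[≠] a) (𝓝[X \ {(a : ℂ)}] a) := by
      rw [tendsto_nhdsWithin_iff]
      refine ⟨(continuous_subtype_val.tendsto a).mono_left nhdsWithin_le_nhds, ?_⟩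
      filter_upwards [self_mem_nhdsWithin] with z hz
      exact ⟨z.2, fun h => hz (Subtype.ext h)⟩
    have h2 := hda.comp hval
    refine h2.congr fun z => ?_
    simp only [Function.comp_apply]
    rw [slope_def_field, ext_apply, ext_apply]

theorem pointwise_of_uniformly {X : Set ℂ} (h : UniformlyRegular X) : PointwiseRegular X := by
  obtain ⟨k, hk, h⟩ := h
  exact fun z hz => ⟨k, hk, h z hz⟩

/-- **Main result.** There is no uniformly regular, polynomially convex compact plane set `X`, with
connected interior which is dense in `X`, for which `D¹(X) ≠ A¹(X)`. More generally `D¹(X) = A¹(X)`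
for all pointwise regular, polynomially convex compact plane sets with connected dense interior. -/
theorem result :
    (¬ ∃ X : Set ℂ, X.Nonempty ∧ IsCompact X ∧ UniformlyRegular X ∧ IsConnected Xᶜ ∧
      IsConnected (interior X) ∧ X ⊆ closure (interior X) ∧ D1 X ≠ A1 X) ∧
    (∀ X : Set ℂ, IsCompact X → PointwiseRegular X → IsConnected Xᶜ → IsConnected (interior X) →
      X ⊆ closure (interior X) → D1 X = A1 X) := by
  refine ⟨?_, fun X hc hr hp hU hd => main hc hr hp hU hd⟩
  rintro ⟨X, -, hc, hr, hp, hU, hd, hne⟩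
  exact hne (main hc (pointwise_of_uniformly hr) hp hU hd)

end Pool.Agent.Results.MP_8e12aa_an.NoSeparation
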